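import Pool.Agent.Helper795.InnerDistOp

/-!
# A non-discrete mapping of finite distortion with inner distortion in `L^p`, `p < 2`

The definitions are in `Pool.Agent.Helper795.InnerDefs`, the proof in
`Pool.Agent.Helper795.InnerDist` and `Pool.Agent.Helper795.InnerDistOp`.
-/

set_option autoImplicit false

open MeasureTheory Metric
open Pool.Agent.Helper795.InnerDefs
open scoped NNReal

namespace Pool.Agent.Results.MP_3d1d78_an.LipschitzNotDiscrete

/-- On the open cube `(-1, 1)³` (the unit ball of the sup norm) there is a Lipschitz, non-constant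
mapping of finite distortion `f ∈ W^{1,3}` with `J_f > 0` a.e. and inner distortion in `L^p` for
every `p < 2` which sends the segment `{(0, 0, t)}` to a point; so `f` is not discrete. -/
theorem result : ∃ (f : (Fin 3 → ℝ) → Fin 3 → ℝ) (D : (Fin 3 → ℝ) → Matrix (Fin 3) (Fin 3) ℝ),
    IsFiniteDistortion (ball 0 1) f D ∧
    (∃ L : ℝ≥0, LipschitzOnWith L f (ball 0 1)) ∧
    (∀ᵐ x ∂(volume.restrict (ball (0 : Fin 3 → ℝ) 1)), 0 < (D x).det) ∧
    (∀ p : ℝ, 1 ≤ p → p < 2 →
      MemLp (fun x => innerDistortion (D x)) (ENNReal.ofReal p)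
        (volume.restrict (ball (0 : Fin 3 → ℝ) 1))) ∧
    (¬ ∃ c, ∀ x ∈ ball (0 : Fin 3 → ℝ) 1, f x = c) ∧
    (∀ t : ℝ, f ![0, 0, t] = 0) ∧
    ¬ IsDiscreteOn (ball 0 1) f :=
  Pool.Agent.Helper795.InnerDist.main_op

end Pool.Agent.Results.MP_3d1d78_an.LipschitzNotDiscrete
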